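import Mathlib
import Pool.Agent.Lib_helper37.KoWeight

/-!
For every connected locally compact group `G` the weight of the common kernel `KO(G)` of all
ordinary (continuous finite dimensional complex) representations is at most `2 ^ ℵ₀`.
-/

open TopologicalSpace
open scoped Cardinal

namespace Pool.Agent.Results.MP_c19dcb_al.WeightKO

universe u

/-- `KO(G)`: the elements of `G` killed by every continuous homomorphism `G → GL_n(ℂ)`, for every
natural number `n`. -/
def KO (G : Type u) [Group G] [TopologicalSpace G] : Subgroup G where
  carrier := {g | ∀ (n : ℕ) (ρ : G →* GL (Fin n) ℂ), Continuous ρ → ρ g = 1}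
  mul_mem' := fun ha hb n ρ hρ => by rw [map_mul, ha n ρ hρ, hb n ρ hρ, one_mul]
  one_mem' := fun _ ρ _ => map_one ρ
  inv_mem' := fun ha n ρ hρ => by rw [map_inv, ha n ρ hρ, inv_one]

/-- The weight of a topological space: the least cardinality of a base of its topology. -/
noncomputable def weight (X : Type u) [TopologicalSpace X] : Cardinal.{u} :=
  sInf {κ | ∃ B : Set (Set X), IsTopologicalBasis B ∧ #B = κ}

/-- For every connected locally compact (Hausdorff) group `G`, the weight of `KO(G)` (with the
subspace topology) is at most the cardinality of the continuum. -/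
theorem result :
    ∀ (G : Type u) [Group G] [TopologicalSpace G] [IsTopologicalGroup G] [T2Space G]
      [LocallyCompactSpace G] [ConnectedSpace G], weight (KO G) ≤ 2 ^ ℵ₀ := by
  intro G _ _ _ _ _ _
  obtain ⟨B, hB, hBc⟩ := Pool.Agent.Helper37.KO.exists_basis_koSub G
  rw [Cardinal.two_power_aleph0]
  have h : #B ∈ {κ | ∃ B : Set (Set (KO G)), IsTopologicalBasis B ∧ #B = κ} := ⟨B, hB, rfl⟩
  exact (csInf_le' h).trans hBc

end Pool.Agent.Results.MP_c19dcb_al.WeightKO
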